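import Pool.Agent.Lib.MP_cd6b85_an.Defs
import Pool.Agent.Lib.MP_cd6b85_an.Main

set_option autoImplicit false

namespace Pool.Agent.Results.MP_cd6b85_an.NoUniformWidth

open Pool.Agent.MP_cd6b85_an

/-- For every real `p ≥ 1` with `p ≠ 2` and every `m ≥ 3`, except possibly `(p, m) = (4, 3)`, and
for every `k`, some `m`-dimensional subspace of the Schatten class `S_p` does not have `p`-width
at most `k`. Here `H` is any complex Hilbert space with a Hilbert basis indexed by `ℕ`. -/
theorem result {H : Type} [NormedAddCommGroup H] [InnerProductSpace ℂ H] [CompleteSpace H]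
    (b : HilbertBasis ℕ ℂ H) (p : ℝ) (hp1 : 1 ≤ p) (hp2 : p ≠ 2) (m : ℕ) (hm : 3 ≤ m)
    (hpm : ¬ (p = 4 ∧ m = 3)) (k : ℕ) :
    ∃ X : Submodule ℂ (Op H), IsSubspaceOfDim b p m X ∧ ¬ HasWidthAtMost b p X k :=
  main_theorem' b p hp1 hp2 m hm hpm k

end Pool.Agent.Results.MP_cd6b85_an.NoUniformWidth
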